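import Mathlib
import Pool.Agent.H.MP_d03aa7_co.Final

/-! Two graphs that `G(n,1/2)` contains with probability at least `1/n` pack. -/

set_option autoImplicit false

namespace Pool.Agent.Results.MP_d03aa7_co.InverseLinear

open MeasureTheory ProbabilityTheory

/-- The parameter `1/2` of the unit interval. -/
noncomputable def half : unitInterval := ⟨1 / 2, by constructor <;> norm_num⟩

/-- `μ(G)`: the probability that `G(n,1/2)` contains a copy of `G`. -/
noncomputable def mu {n : ℕ} (G : SimpleGraph (Fin n)) : ℝ :=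
  (SimpleGraph.binomialRandom (Fin n) half).real {K | G.IsContained K}

/-- `G` and `H` pack: some permutation carries `H` into the complement of `G`. -/
def Pack {n : ℕ} (G H : SimpleGraph (Fin n)) : Prop :=
  ∃ σ : Equiv.Perm (Fin n), H.map σ.toEmbedding ≤ Gᶜ

lemma sing_eq {n : ℕ} (G : SimpleGraph (Fin n)) :
    (SimpleGraph.binomialRandom (Fin n) half).real {G} = (1 / 2 : ℝ) ^ (n.choose 2) := by
  have hs : unitInterval.symm half = half := by
    apply Subtype.ext
    simp [half]
    norm_num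
  have hle : G.edgeSet.ncard ≤ n.choose 2 := by
    classical
    have := G.card_edgeFinset_le_card_choose_two
    rw [Fintype.card_fin] at this
    rwa [← SimpleGraph.coe_edgeFinset, Set.ncard_coe_finset]
  have hh : ((unitInterval.toNNReal half : NNReal) : ℝ) = 1 / 2 := rfl
  rw [measureReal_def, SimpleGraph.binomialRandom_singleton, hs, Nat.card_fin, ← pow_add,
    Nat.add_sub_cancel' hle, ENNReal.toReal_pow, ENNReal.coe_toReal, hh]

lemma meas_singleton {n : ℕ} : MeasurableSingletonClass (SimpleGraph (Fin n)) := by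
  refine ⟨fun G => ?_⟩
  have h : ({G} : Set (SimpleGraph (Fin n))) =
      (SimpleGraph.Adj : SimpleGraph (Fin n) → Fin n → Fin n → Prop) ⁻¹' {G.Adj} := by
    ext K
    simp only [Set.mem_singleton_iff, Set.mem_preimage]
    exact ⟨fun h => by rw [h], fun h => SimpleGraph.ext h⟩
  rw [h]
  exact SimpleGraph.measurable_adj (measurableSet_singleton _)

open Classical in
lemma real_eq {n : ℕ} (S : Set (SimpleGraph (Fin n))) :
    (SimpleGraph.binomialRandom (Fin n) half).real S =
      (1 / 2 : ℝ) ^ (n.choose 2) * (Finset.univ.filter (fun K => K ∈ S)).card := by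
  have := meas_singleton (n := n)
  have h1 : S = ((Finset.univ.filter (fun K => K ∈ S) : Finset (SimpleGraph (Fin n))) :
      Set (SimpleGraph (Fin n))) := by
    ext K; simp
  conv_lhs => rw [h1]
  rw [← sum_measureReal_singleton]
  rw [Finset.sum_congr rfl (fun K _ => sing_eq K), Finset.sum_const, nsmul_eq_mul, mul_comm]

open Classical in
lemma card_eq (n : ℕ) :
    (1 / 2 : ℝ) ^ (n.choose 2) * (Fintype.card (SimpleGraph (Fin n)) : ℕ) = 1 := by
  have h := real_eq (n := n) Set.univ
  rw [probReal_univ] at h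
  simp at h
  rw [one_div, inv_pow]
  exact h.symm

open Pool.Agent.H.MP_d03aa7_co in
open Classical in
lemma conv {n : ℕ} (G : SimpleGraph (Fin n)) {α : ℝ} (h : α ≤ mu G) :
    α * (Fintype.card (SimpleGraph (Fin n)) : ℕ) ≤
      ((Finset.univ.filter (fun K : SimpleGraph (Fin n) => Emb G K)).card : ℕ) := by
  have h1 : (Finset.univ.filter (fun K : SimpleGraph (Fin n) => K ∈ {K | G.IsContained K})) =
      Finset.univ.filter (fun K : SimpleGraph (Fin n) => Emb G K) := by
    ext K
    simp only [Finset.mem_filter, Finset.mem_univ, true_and, Set.mem_ofPred_eq]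
    constructor
    · rintro ⟨f⟩
      exact ⟨f, f.injective, fun u v huv => f.toHom.map_adj huv⟩
    · rintro ⟨f, hf, hadj⟩
      exact ⟨⟨⟨f, fun {u v} huv => hadj u v huv⟩, hf⟩⟩
  unfold mu at h
  rw [real_eq, h1] at h
  have h2 := card_eq n
  have h3 : (0:ℝ) ≤ (Fintype.card (SimpleGraph (Fin n)) : ℕ) := Nat.cast_nonneg _
  calc α * (Fintype.card (SimpleGraph (Fin n)) : ℕ)
      ≤ ((1 / 2 : ℝ) ^ (n.choose 2) * ((Finset.univ.filter
          (fun K : SimpleGraph (Fin n) => Emb G K)).card : ℕ)) *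
            (Fintype.card (SimpleGraph (Fin n)) : ℕ) := mul_le_mul_of_nonneg_right h h3
    _ = ((1 / 2 : ℝ) ^ (n.choose 2) * (Fintype.card (SimpleGraph (Fin n)) : ℕ)) *
          ((Finset.univ.filter (fun K : SimpleGraph (Fin n) => Emb G K)).card : ℕ) := by ring
    _ = _ := by rw [h2, one_mul]

lemma eventually_params : ∃ N : ℕ, ∀ n : ℕ, N ≤ n →
    (∃ L : ℕ, n ≤ 2^L ∧ 10^5 ≤ L ∧ L^20 ≤ n) ∧ 0 < n ∧
      2 * (n:ℝ)^2 * (9:ℝ)^n < 9 * 12^n := by
  have t1 := tendsto_pow_const_div_const_pow_of_one_lt 20 (r := 2) (by norm_num)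
  have t2 := tendsto_pow_const_div_const_pow_of_one_lt 2 (r := 4/3) (by norm_num)
  have e1 := (t1.eventually (gt_mem_nhds (show (0:ℝ) < 1/2 by norm_num)))
  have e2 := (t2.eventually (gt_mem_nhds (show (0:ℝ) < 9/2 by norm_num)))
  rw [Filter.eventually_atTop] at e1 e2
  obtain ⟨N1, h1⟩ := e1
  obtain ⟨N2, h2⟩ := e2
  refine ⟨max (2^(max N1 (10^5))) (max N2 1), fun n hn => ⟨?_, ?_, ?_⟩⟩
  · have hn1 : 2^(max N1 (10^5)) ≤ n := (le_max_left _ _).trans hn
    have hclog : max N1 (10^5) ≤ Nat.clog 2 n := by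
      have := Nat.clog_mono_right 2 hn1
      rwa [Nat.clog_pow 2 _ (by norm_num)] at this
    refine ⟨Nat.clog 2 n, Nat.le_pow_clog (by norm_num) n, (le_max_right _ _).trans hclog, ?_⟩
    set L := Nat.clog 2 n with hL
    have hLN : N1 ≤ L := (le_max_left _ _).trans hclog
    have hL5 : 10^5 ≤ L := (le_max_right _ _).trans hclog
    have h3 := h1 L hLN
    rw [div_lt_iff₀ (by positivity)] at h3
    have h4 : 2^(L-1) < n := by
      apply Nat.pow_pred_clog_lt_self (by norm_num)
      have : 2^1 ≤ 2^(max N1 (10^5)) := Nat.pow_le_pow_right (by norm_num) (by omega)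
      omega
    obtain ⟨k, hk⟩ : ∃ k, L = k + 1 := ⟨L - 1, by omega⟩
    have h5 : (L:ℝ)^20 < 2^k := by
      rw [hk] at h3 ⊢
      rw [pow_succ (2:ℝ) k] at h3
      linarith
    have h6 : L^20 < 2^k := by exact_mod_cast h5
    have h7 : L - 1 = k := by omega
    rw [h7] at h4
    omega
  · have hn1 : 1 ≤ n := (le_max_right _ _).trans ((le_max_right _ _).trans hn)
    omega
  · have hn1 : N2 ≤ n := (le_max_left _ _).trans ((le_max_right _ _).trans hn)
    have h3 := h2 n hn1
    rw [div_lt_iff₀ (by positivity), div_pow, mul_div_assoc', lt_div_iff₀ (by positivity)] at h3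
    have h4 : (12:ℝ)^n = 4^n * 3^n := by rw [← mul_pow]; norm_num
    have h5 : (9:ℝ)^n = 3^n * 3^n := by rw [← mul_pow]; norm_num
    have h6 : (0:ℝ) < 3^n := by positivity
    rw [h4, h5]
    nlinarith

/-- There is an absolute `N` such that for `n ≥ N` any two `n`-vertex graphs that `G(n,1/2)`
contains with probability at least `1/n` pack. -/
theorem result : ∃ N : ℕ, ∀ n : ℕ, N ≤ n → ∀ G H : SimpleGraph (Fin n),
    1 / (n : ℝ) ≤ mu G → 1 / (n : ℝ) ≤ mu H → Pack G H := by
  obtain ⟨N, hN⟩ := eventually_params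
  refine ⟨N, fun n hn G H hG hH => ?_⟩
  obtain ⟨⟨L, l1, l2, l3⟩, h2, h3⟩ := hN n hn
  have hcard : Fintype.card (Fin n) = n := Fintype.card_fin n
  have hn0 : (0:ℝ) < n := by exact_mod_cast h2
  have hα : (0:ℝ) < 1 / n := by positivity
  obtain ⟨σ, hσ⟩ := Pool.Agent.H.MP_d03aa7_co.final G H hα (L := L) (by rw [hcard]; exact l1) l2
    (by rw [hcard]; exact l3) (by rw [hcard, one_div, inv_mul_cancel₀ hn0.ne'])
    (by rw [hcard]; exact h3) (conv G hG) (conv H hH)
  refine ⟨σ, ?_⟩
  intro a b hab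
  rw [SimpleGraph.map_adj] at hab
  obtain ⟨u, v, huv, rfl, rfl⟩ := hab
  rw [SimpleGraph.compl_adj]
  exact ⟨fun h => huv.ne (σ.injective h), hσ u v huv⟩

end Pool.Agent.Results.MP_d03aa7_co.InverseLinear
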